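/-
H68: PROJECT LU (MP_98dedd_gt), part A, module DENSITY.
Functions computed from linear forms by linear combinations and medians of three are dense in
the odd continuous functions on a compact symmetric subset of the unit sphere.
-/
import Mathlib

namespace Pool.LU

open scoped BigOperators

/-- Median of three reals. -/
noncomputable def med3 (a b c : ℝ) : ℝ := max (min a b) (min (max a b) c)

/-- Functions computed from linear forms by linear combinations and medians of three. -/
inductive MedFn (V : Type*) [Fintype V] : ((V → ℝ) → ℝ) → Prop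
  | lin (a : V → ℝ) : MedFn V (fun u => ∑ v, a v * u v)
  | add {f g : (V → ℝ) → ℝ} : MedFn V f → MedFn V g → MedFn V (fun u => f u + g u)
  | smul (c : ℝ) {f : (V → ℝ) → ℝ} : MedFn V f → MedFn V (fun u => c * f u)
  | med {f g h : (V → ℝ) → ℝ} : MedFn V f → MedFn V g → MedFn V h →
      MedFn V (fun u => med3 (f u) (g u) (h u))

theorem med3_neg (a b c : ℝ) : med3 (-a) (-b) (-c) = - med3 a b c := by
  unfold med3
  rcases le_total a b with h1 | h1 <;> rcases le_total b c with h2 | h2 <;>
    rcases le_total a c with h3 | h3 <;>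
    simp [min_def, max_def] <;> split_ifs <;> linarith

theorem med3_swap12 (a b c : ℝ) : med3 a b c = med3 b a c := by
  unfold med3; rw [min_comm a b, max_comm a b]

theorem med3_swap23 (a b c : ℝ) : med3 a b c = med3 a c b := by
  unfold med3
  rcases le_total a b with h1 | h1 <;> rcases le_total b c with h2 | h2 <;>
    rcases le_total a c with h3 | h3 <;>
    simp [min_def, max_def] <;> split_ifs <;> linarith

theorem med3_mul {s : ℝ} (hs : 0 ≤ s) (a b c : ℝ) :
    med3 (s * a) (s * b) (s * c) = s * med3 a b c := by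
  unfold med3
  rw [← mul_min_of_nonneg _ _ hs, ← mul_max_of_nonneg _ _ hs, ← mul_min_of_nonneg _ _ hs,
    ← mul_max_of_nonneg _ _ hs]

/-- Two of the three in an interval: the median is in the interval. -/
theorem med3_mem12 {lo hi a b c : ℝ} (ha : lo < a ∧ a < hi) (hb : lo < b ∧ b < hi) :
    lo < med3 a b c ∧ med3 a b c < hi := by
  unfold med3
  refine ⟨lt_of_lt_of_le (lt_min ha.1 hb.1) (le_max_left _ _), ?_⟩
  refine max_lt (lt_of_le_of_lt (min_le_left _ _) ha.2) ?_
  exact lt_of_le_of_lt (min_le_left _ _) (max_lt ha.2 hb.2)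

theorem med3_mem13 {lo hi a b c : ℝ} (ha : lo < a ∧ a < hi) (hc : lo < c ∧ c < hi) :
    lo < med3 a b c ∧ med3 a b c < hi := by
  rw [med3_swap23]; exact med3_mem12 ha hc

theorem med3_mem23 {lo hi a b c : ℝ} (hb : lo < b ∧ b < hi) (hc : lo < c ∧ c < hi) :
    lo < med3 a b c ∧ med3 a b c < hi := by
  rw [med3_swap12]; exact med3_mem13 hb hc

theorem abs_med3_sub_le {a b c a' b' c' e : ℝ} (ha : |a - a'| ≤ e) (hb : |b - b'| ≤ e)
    (hc : |c - c'| ≤ e) : |med3 a b c - med3 a' b' c'| ≤ e := by
  unfold med3
  refine (abs_max_sub_max_le_max _ _ _ _).trans (max_le ?_ ?_)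
  · exact (abs_min_sub_min_le_max _ _ _ _).trans (max_le ha hb)
  · refine (abs_min_sub_min_le_max _ _ _ _).trans (max_le ?_ hc)
    exact (abs_max_sub_max_le_max _ _ _ _).trans (max_le ha hb)

/-- At most one of three numbers exceeds `t` iff the median is at most `t`. -/
theorem med3_le_iff {a b c t : ℝ} :
    med3 a b c ≤ t ↔ (a ≤ t ∧ b ≤ t) ∨ (a ≤ t ∧ c ≤ t) ∨ (b ≤ t ∧ c ≤ t) := by
  unfold med3
  rw [max_le_iff, min_le_iff, min_le_iff, max_le_iff]
  tauto

theorem le_med3_iff {a b c t : ℝ} :
    t ≤ med3 a b c ↔ (t ≤ a ∧ t ≤ b) ∨ (t ≤ a ∧ t ≤ c) ∨ (t ≤ b ∧ t ≤ c) := by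
  unfold med3
  rw [le_max_iff, le_min_iff, le_min_iff, le_max_iff]
  tauto

theorem med3_le_max {a b c : ℝ} : med3 a b c ≤ max a b := by
  unfold med3
  exact max_le (min_le_max) (min_le_left _ _)

theorem min_le_med3 {a b c : ℝ} : min a b ≤ med3 a b c := le_max_left _ _

theorem continuous_med3 {X : Type*} [TopologicalSpace X] {f g h : X → ℝ} (hf : Continuous f)
    (hg : Continuous g) (hh : Continuous h) : Continuous fun x => med3 (f x) (g x) (h x) := by
  unfold med3
  exact (hf.min hg).max ((hf.max hg).min hh)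

namespace MedFn

variable {V : Type*} [Fintype V]

theorem zero : MedFn V (fun _ => 0) := by
  have h := MedFn.lin (V := V) (fun _ => 0)
  simpa using h

theorem neg {f : (V → ℝ) → ℝ} (hf : MedFn V f) : MedFn V (fun u => - f u) := by
  have h := MedFn.smul (-1) hf
  simpa using h

theorem sub {f g : (V → ℝ) → ℝ} (hf : MedFn V f) (hg : MedFn V g) :
    MedFn V (fun u => f u - g u) := by
  have h := MedFn.add hf hg.neg
  simpa [sub_eq_add_neg] using h

theorem sum {ι : Type*} (s : Finset ι) (F : ι → (V → ℝ) → ℝ) (hF : ∀ i ∈ s, MedFn V (F i)) :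
    MedFn V (fun u => ∑ i ∈ s, F i u) := by
  classical
  induction s using Finset.induction_on with
  | empty => simpa using MedFn.zero (V := V)
  | insert i s hi ih =>
    have h1 := ih (fun j hj => hF j (Finset.mem_insert_of_mem hj))
    have h2 := MedFn.add (hF i (Finset.mem_insert_self i s)) h1
    have h3 : (fun u => ∑ j ∈ insert i s, F j u) = fun u => F i u + ∑ j ∈ s, F j u := by
      funext u; rw [Finset.sum_insert hi]
    rw [h3]; exact h2

theorem coord [DecidableEq V] (v : V) : MedFn V (fun u => u v) := by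
  have h := MedFn.lin (V := V) (fun w => if w = v then 1 else 0)
  simpa using h

theorem odd {f : (V → ℝ) → ℝ} (hf : MedFn V f) (u : V → ℝ) : f (-u) = - f u := by
  induction hf with
  | lin a => simp
  | add _ _ h1 h2 => beta_reduce; rw [h1, h2]; ring
  | smul c _ h1 => beta_reduce; rw [h1]; ring
  | med _ _ _ h1 h2 h3 => beta_reduce; rw [h1, h2, h3, med3_neg]

theorem homog {f : (V → ℝ) → ℝ} (hf : MedFn V f) {s : ℝ} (hs : 0 ≤ s) (u : V → ℝ) :
    f (s • u) = s * f u := by
  induction hf with
  | lin a =>
    rw [Finset.mul_sum]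
    refine Finset.sum_congr rfl fun v _ => ?_
    simp only [Pi.smul_apply, smul_eq_mul]; ring
  | add _ _ h1 h2 => beta_reduce; rw [h1, h2]; ring
  | smul c _ h1 => beta_reduce; rw [h1]; ring
  | med _ _ _ h1 h2 h3 => beta_reduce; rw [h1, h2, h3, med3_mul hs]

theorem continuous {f : (V → ℝ) → ℝ} (hf : MedFn V f) : Continuous f := by
  induction hf with
  | lin a => fun_prop
  | add _ _ h1 h2 => exact h1.add h2
  | smul c _ h1 => exact continuous_const.mul h1
  | med _ _ _ h1 h2 h3 => exact continuous_med3 h1 h2 h3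

end MedFn

/-- Interpolation by a linear form at two points of the unit sphere. -/
theorem exists_lin_interp {V : Type*} [Fintype V] {S : Set (V → ℝ)}
    (h1 : ∀ u ∈ S, ‖u‖ = 1) (g : (V → ℝ) → ℝ) (hodd : ∀ u ∈ S, -u ∈ S ∧ g (-u) = - g u)
    {p q : V → ℝ} (hp : p ∈ S) (hq : q ∈ S) :
    ∃ a : V → ℝ, ∑ v, a v * p v = g p ∧ ∑ v, a v * q v = g q := by
  classical
  have hpn := h1 p hp
  have hqn := h1 q hq
  -- a coordinate of `p` which is not zero
  obtain ⟨v0, hv0⟩ : ∃ v, p v ≠ 0 := by
    by_contra hcon
    push Not at hcon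
    have : p = 0 := funext hcon
    rw [this, norm_zero] at hpn
    exact zero_ne_one hpn
  by_cases hminor : ∃ w, p v0 * q w - p w * q v0 ≠ 0
  · obtain ⟨w, hw⟩ := hminor
    set D := p v0 * q w - p w * q v0 with hD
    have hvw : v0 ≠ w := by
      rintro rfl
      apply hw; rw [hD]; ring
    set α := (g p * q w - g q * p w) / D with hα
    set β := (p v0 * g q - q v0 * g p) / D with hβ
    have key : ∀ x : V → ℝ, ∑ v, (Pi.single v0 α + Pi.single w β : V → ℝ) v * x v
        = α * x v0 + β * x w := by
      intro x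
      simp only [Pi.add_apply, add_mul, Finset.sum_add_distrib]
      congr 1
      · rw [Finset.sum_eq_single v0]
        · simp
        · intro b _ hb; simp [Pi.single_eq_of_ne hb]
        · intro h; exact absurd (Finset.mem_univ _) h
      · rw [Finset.sum_eq_single w]
        · simp
        · intro b _ hb; simp [Pi.single_eq_of_ne hb]
        · intro h; exact absurd (Finset.mem_univ _) h
    refine ⟨Pi.single v0 α + Pi.single w β, ?_, ?_⟩
    · rw [key, hα, hβ]
      field_simp
      rw [hD]; ring
    · rw [key, hα, hβ]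
      field_simp
      rw [hD]; ring
  · push Not at hminor
    -- `q` is a multiple of `p`
    set c := q v0 / p v0 with hc
    have hqc : q = c • p := by
      funext w
      have := hminor w
      simp only [Pi.smul_apply, smul_eq_mul]
      rw [hc]
      field_simp
      linarith
    have hcabs : |c| = 1 := by
      have : ‖q‖ = |c| * ‖p‖ := by rw [hqc, norm_smul, Real.norm_eq_abs]
      rw [hpn, hqn] at this
      linarith
    have key : ∀ x : V → ℝ, ∑ v, (Pi.single v0 (g p / p v0) : V → ℝ) v * x v
        = g p / p v0 * x v0 := by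
      intro x
      rw [Finset.sum_eq_single v0]
      · simp
      · intro b _ hb; simp [Pi.single_eq_of_ne hb]
      · intro h; exact absurd (Finset.mem_univ _) h
    refine ⟨Pi.single v0 (g p / p v0), ?_, ?_⟩
    · rw [key]; field_simp
    · rw [key]
      rcases (abs_eq (zero_le_one)).mp hcabs with h | h
      · have hqp : q = p := by rw [hqc, h, one_smul]
        rw [hqp]; field_simp
      · have hqp : q = -p := by rw [hqc, h, neg_one_smul]
        rw [hqp, (hodd p hp).2, Pi.neg_apply]; field_simp

/-- DENSITY: median circuits are dense in the odd continuous functions on a compact symmetric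
subset of the unit sphere (Baker and Pixley). -/
theorem medFn_dense {V : Type*} [Fintype V] {S : Set (V → ℝ)} (hS : IsCompact S)
    (h1 : ∀ u ∈ S, ‖u‖ = 1) (g : (V → ℝ) → ℝ) (hg : ContinuousOn g S)
    (hodd : ∀ u ∈ S, -u ∈ S ∧ g (-u) = - g u) {ε : ℝ} (hε : 0 < ε) :
    ∃ f, MedFn V f ∧ ∀ u ∈ S, |f u - g u| < ε := by
  classical
  have : CompactSpace S := isCompact_iff_compactSpace.mp hS
  have hgc : Continuous (fun x : S => g x) := continuousOn_iff_continuous_domRestrict.mp hg
  -- local linear forms
  have hloc : ∀ z : S × S, ∃ a : V → ℝ,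
      ∑ v, a v * (z.1 : V → ℝ) v = g z.1 ∧ ∑ v, a v * (z.2 : V → ℝ) v = g z.2 := fun z =>
    exists_lin_interp h1 g hodd z.1.2 z.2.2
  choose a ha using hloc
  let L : (S × S) → (V → ℝ) → ℝ := fun z u => ∑ v, a z v * u v
  have hLc : ∀ z, Continuous (fun x : S => L z x) := by
    intro z
    have : Continuous (L z) := by
      show Continuous fun u : V → ℝ => ∑ v, a z v * u v
      fun_prop
    exact this.comp continuous_subtype_val
  let c : (S × S) → Set (S × S) := fun z =>
    {w | |L z w.1 - g w.1| < ε ∧ |L z w.2 - g w.2| < ε}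
  have hc_open : ∀ z, IsOpen (c z) := by
    intro z
    have h1' : Continuous fun w : S × S => |L z w.1 - g w.1| :=
      (((hLc z).comp continuous_fst).sub (hgc.comp continuous_fst)).abs
    have h2' : Continuous fun w : S × S => |L z w.2 - g w.2| :=
      (((hLc z).comp continuous_snd).sub (hgc.comp continuous_snd)).abs
    exact (isOpen_lt h1' continuous_const).inter (isOpen_lt h2' continuous_const)
  have hcov : (Set.univ : Set (S × S)) ⊆ ⋃ z, c z := by
    intro z _
    refine Set.mem_iUnion.mpr ⟨z, ?_, ?_⟩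
    · show |L z z.1 - g z.1| < ε
      have : L z z.1 = g z.1 := (ha z).1
      rw [this, sub_self, abs_zero]; exact hε
    · show |L z z.2 - g z.2| < ε
      have : L z z.2 = g z.2 := (ha z).2
      rw [this, sub_self, abs_zero]; exact hε
  obtain ⟨δ, hδ, hleb⟩ := lebesgue_number_lemma_of_metric isCompact_univ hc_open hcov
  -- good functions for finite families of balls
  have hmain : ∀ I : Finset S, ∃ f, MedFn V f ∧
      ∀ x ∈ I, ∀ y : S, dist y x < δ → |f y - g y| < ε := by
    have hpair : ∀ x x' : S, ∃ f, MedFn V f ∧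
        ∀ y : S, (dist y x < δ ∨ dist y x' < δ) → |f y - g y| < ε := by
      intro x x'
      obtain ⟨z, hz⟩ := hleb (x, x') (Set.mem_univ _)
      refine ⟨L z, MedFn.lin (a z), ?_⟩
      rintro y (hy | hy)
      · have : ((y, x') : S × S) ∈ c z := by
          apply hz
          rw [Metric.mem_ball, Prod.dist_eq]
          simp only [dist_self]
          exact max_lt hy hδ
        exact this.1
      · have : ((x, y) : S × S) ∈ c z := by
          apply hz
          rw [Metric.mem_ball, Prod.dist_eq]
          simp only [dist_self]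
          exact max_lt hδ hy
        exact this.2
    intro I
    induction I using Finset.strongInduction with
    | H I ih =>
      by_cases hcard : 2 < I.card
      · obtain ⟨x1, hx1, x2, hx2, x3, hx3, h12, h13, h23⟩ := Finset.two_lt_card.mp hcard
        obtain ⟨f1, hf1, hg1⟩ := ih (I.erase x1) (Finset.erase_ssubset hx1)
        obtain ⟨f2, hf2, hg2⟩ := ih (I.erase x2) (Finset.erase_ssubset hx2)
        obtain ⟨f3, hf3, hg3⟩ := ih (I.erase x3) (Finset.erase_ssubset hx3)
        refine ⟨_, MedFn.med hf1 hf2 hf3, ?_⟩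
        intro x hx y hy
        have conv : ∀ t : ℝ, |t - g y| < ε ↔ g y - ε < t ∧ t < g y + ε := by
          intro t
          rw [abs_lt]
          constructor
          · rintro ⟨h, h'⟩; constructor <;> linarith
          · rintro ⟨h, h'⟩; constructor <;> linarith
        rw [conv]
        have e1 : x ≠ x1 → g y - ε < f1 y ∧ f1 y < g y + ε := fun h =>
          (conv _).mp (hg1 x (Finset.mem_erase.mpr ⟨h, hx⟩) y hy)
        have e2 : x ≠ x2 → g y - ε < f2 y ∧ f2 y < g y + ε := fun h =>
          (conv _).mp (hg2 x (Finset.mem_erase.mpr ⟨h, hx⟩) y hy)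
        have e3 : x ≠ x3 → g y - ε < f3 y ∧ f3 y < g y + ε := fun h =>
          (conv _).mp (hg3 x (Finset.mem_erase.mpr ⟨h, hx⟩) y hy)
        by_cases hxx1 : x = x1
        · refine med3_mem23 (e2 ?_) (e3 ?_)
          · rw [hxx1]; exact h12
          · rw [hxx1]; exact h13
        · by_cases hxx2 : x = x2
          · refine med3_mem13 (e1 hxx1) (e3 ?_)
            rw [hxx2]; exact h23
          · exact med3_mem12 (e1 hxx1) (e2 hxx2)
      · have hle : I.card ≤ 2 := not_lt.mp hcard
        rcases Finset.eq_empty_or_nonempty I with rfl | ⟨x, hx⟩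
        · exact ⟨_, MedFn.zero, by simp⟩
        · -- `I` is contained in a pair
          obtain ⟨x', hx'⟩ : ∃ x', ∀ y ∈ I, y = x ∨ y = x' := by
            by_contra hcon
            push Not at hcon
            obtain ⟨y, hy, hyx, _⟩ := hcon x
            obtain ⟨y', hy', hy'x, hy'y⟩ := hcon y
            have h3 : 2 < I.card :=
              Finset.two_lt_card.mpr ⟨x, hx, y, hy, y', hy', hyx.symm, hy'x.symm, hy'y.symm⟩
            omega
          obtain ⟨f, hf, hgood⟩ := hpair x x'
          refine ⟨f, hf, ?_⟩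
          intro z hz y hy
          rcases hx' z hz with rfl | rfl
          · exact hgood y (Or.inl hy)
          · exact hgood y (Or.inr hy)
  obtain ⟨t, _, htfin, htcov⟩ := (isCompact_univ (X := S)).finite_cover_balls hδ
  obtain ⟨f, hf, hgood⟩ := hmain htfin.toFinset
  refine ⟨f, hf, ?_⟩
  intro u hu
  have hmem := htcov (Set.mem_univ (⟨u, hu⟩ : S))
  rw [Set.mem_iUnion₂] at hmem
  obtain ⟨x, hx, hxb⟩ := hmem
  exact hgood x (htfin.mem_toFinset.mpr hx) ⟨u, hu⟩ (Metric.mem_ball.mp hxb)

end Pool.LU
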