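/-
H68: PROJECT LU (MP_98dedd_gt), part A: straight-line programs of medians (interface of helper70).
-/
import Pool.Agent.H68.LU.Density

namespace Pool.LU

open scoped BigOperators

/-- A straight-line program of median gates `G` on the variables `V`: the `j`-th argument of gate
`i` is the linear form `l i j` of the variables plus the combination `m i j` of gates of smaller
rank. -/
structure Prog (V G : Type) where
  /-- coefficients of the variables -/
  l : G → Fin 3 → V → ℝ
  /-- coefficients of the other gates -/
  m : G → Fin 3 → G → ℝ
  /-- the rank of a gate -/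
  rk : G → ℕ
  /-- only gates of smaller rank are used -/
  tri : ∀ i j k, m i j k ≠ 0 → rk k < rk i

namespace Prog

variable {V G : Type} [Fintype V] [Fintype G]

/-- the `j`-th argument of gate `i` -/
noncomputable def arg (P : Prog V G) (u : V → ℝ) (T : G → ℝ) (i : G) (j : Fin 3) : ℝ :=
  ∑ v, P.l i j v * u v + ∑ k, P.m i j k * T k

/-- `T` is the vector of the values of the gates at `u` -/
def Val (P : Prog V G) (u : V → ℝ) (T : G → ℝ) : Prop :=
  ∀ i, T i = med3 (P.arg u T i 0) (P.arg u T i 1) (P.arg u T i 2)

end Prog

end Pool.LU
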