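/-
H68: PROJECT LU (MP_98dedd_gt), part A, module PROG: every finite family of median functions is
computed by one straight-line program.
-/
import Pool.Agent.H68.LU.ProgDefs

namespace Pool.LU

open scoped BigOperators

/-- a function computed by a program -/
def Comp {V G : Type} [Fintype V] [Fintype G] (P : Prog V G) (f : (V → ℝ) → ℝ) : Prop :=
  ∃ (a : V → ℝ) (b : G → ℝ), ∀ u T, P.Val u T → f u = ∑ v, a v * u v + ∑ k, b k * T k

namespace Prog

variable {V G H : Type} [Fintype V] [Fintype G] [Fintype H]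

/-- two programs side by side -/
def side (P : Prog V G) (Q : Prog V H) : Prog V (G ⊕ H) where
  l := Sum.elim P.l Q.l
  m := Sum.elim (fun i j => Sum.elim (P.m i j) (fun _ => 0))
    (fun i j => Sum.elim (fun _ => 0) (Q.m i j))
  rk := Sum.elim P.rk Q.rk
  tri := by
    rintro (i | i) j (k | k) h
    · exact P.tri i j k h
    · exact absurd rfl h
    · exact absurd rfl h
    · exact Q.tri i j k h

theorem side_val_left {P : Prog V G} {Q : Prog V H} {u : V → ℝ} {T : G ⊕ H → ℝ}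
    (h : (P.side Q).Val u T) : P.Val u (T ∘ Sum.inl) := by
  intro i
  have := h (Sum.inl i)
  simpa [arg, side, Fintype.sum_sum_type] using this

theorem side_val_right {P : Prog V G} {Q : Prog V H} {u : V → ℝ} {T : G ⊕ H → ℝ}
    (h : (P.side Q).Val u T) : Q.Val u (T ∘ Sum.inr) := by
  intro i
  have := h (Sum.inr i)
  simpa [arg, side, Fintype.sum_sum_type] using this

theorem comp_side_left {P : Prog V G} (Q : Prog V H) {f : (V → ℝ) → ℝ} (h : Comp P f) :
    Comp (P.side Q) f := by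
  obtain ⟨a, b, hab⟩ := h
  refine ⟨a, Sum.elim b (fun _ => 0), ?_⟩
  intro u T hT
  rw [hab u _ (side_val_left hT)]
  simp [Fintype.sum_sum_type]

theorem comp_side_right (P : Prog V G) {Q : Prog V H} {f : (V → ℝ) → ℝ} (h : Comp Q f) :
    Comp (P.side Q) f := by
  obtain ⟨a, b, hab⟩ := h
  refine ⟨a, Sum.elim (fun _ => 0) b, ?_⟩
  intro u T hT
  rw [hab u _ (side_val_right hT)]
  simp [Fintype.sum_sum_type]

/-- one more gate -/
def snoc (P : Prog V G) (a : Fin 3 → V → ℝ) (b : Fin 3 → G → ℝ) : Prog V (G ⊕ Unit) where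
  l := Sum.elim P.l (fun _ => a)
  m := Sum.elim (fun i j => Sum.elim (P.m i j) (fun _ => 0))
    (fun _ j => Sum.elim (b j) (fun _ => 0))
  rk := Sum.elim P.rk (fun _ => (Finset.univ.sup P.rk) + 1)
  tri := by
    rintro (i | i) j (k | k) h
    · exact P.tri i j k h
    · exact absurd rfl h
    · exact Nat.lt_succ_of_le (Finset.le_sup (f := P.rk) (Finset.mem_univ k))
    · exact absurd rfl h

theorem snoc_val_left {P : Prog V G} {a : Fin 3 → V → ℝ} {b : Fin 3 → G → ℝ} {u : V → ℝ}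
    {T : G ⊕ Unit → ℝ} (h : (P.snoc a b).Val u T) : P.Val u (T ∘ Sum.inl) := by
  intro i
  have := h (Sum.inl i)
  simpa [arg, snoc, Fintype.sum_sum_type] using this

theorem snoc_val_right {P : Prog V G} {a : Fin 3 → V → ℝ} {b : Fin 3 → G → ℝ} {u : V → ℝ}
    {T : G ⊕ Unit → ℝ} (h : (P.snoc a b).Val u T) :
    T (Sum.inr ()) = med3 (∑ v, a 0 v * u v + ∑ k, b 0 k * T (Sum.inl k))
      (∑ v, a 1 v * u v + ∑ k, b 1 k * T (Sum.inl k))
      (∑ v, a 2 v * u v + ∑ k, b 2 k * T (Sum.inl k)) := by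
  have := h (Sum.inr ())
  simpa [arg, snoc, Fintype.sum_sum_type] using this

theorem comp_lin (P : Prog V G) (a : V → ℝ) : Comp P (fun u => ∑ v, a v * u v) :=
  ⟨a, fun _ => 0, fun u T _ => by simp⟩

theorem comp_add {P : Prog V G} {f g : (V → ℝ) → ℝ} (hf : Comp P f) (hg : Comp P g) :
    Comp P (fun u => f u + g u) := by
  obtain ⟨a, b, h1⟩ := hf
  obtain ⟨a', b', h2⟩ := hg
  refine ⟨fun v => a v + a' v, fun k => b k + b' k, ?_⟩
  intro u T hT
  beta_reduce
  rw [h1 u T hT, h2 u T hT]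
  simp only [add_mul, Finset.sum_add_distrib]
  ring

theorem comp_smul {P : Prog V G} (c : ℝ) {f : (V → ℝ) → ℝ} (hf : Comp P f) :
    Comp P (fun u => c * f u) := by
  obtain ⟨a, b, h1⟩ := hf
  refine ⟨fun v => c * a v, fun k => c * b k, ?_⟩
  intro u T hT
  beta_reduce
  rw [h1 u T hT]
  simp only [mul_add, Finset.mul_sum, mul_assoc]

theorem comp_med {P : Prog V G} {f g h : (V → ℝ) → ℝ} (hf : Comp P f) (hg : Comp P g)
    (hh : Comp P h) :
    ∃ Q : Prog V (G ⊕ Unit), Comp Q (fun u => med3 (f u) (g u) (h u)) := by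
  obtain ⟨a, b, h1⟩ := hf
  obtain ⟨a', b', h2⟩ := hg
  obtain ⟨a'', b'', h3⟩ := hh
  refine ⟨P.snoc ![a, a', a''] ![b, b', b''], fun _ => 0,
    Sum.elim (fun _ => 0) (fun _ => 1), ?_⟩
  intro u T hT
  have e1 := h1 u _ (snoc_val_left hT)
  have e2 := h2 u _ (snoc_val_left hT)
  have e3 := h3 u _ (snoc_val_left hT)
  have e4 := snoc_val_right hT
  simp only [Matrix.cons_val_zero, Matrix.cons_val_one, Matrix.cons_val] at e4
  simp only [Function.comp_apply] at e1 e2 e3
  simp only [Fintype.sum_sum_type, Sum.elim_inl, Sum.elim_inr, zero_mul, Finset.sum_const_zero,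
    zero_add, one_mul, Finset.univ_unique, Finset.sum_singleton]
  rw [e1, e2, e3]
  exact e4.symm

/-- programs for a family, side by side -/
def fam {d : ℕ} {G : Fin d → Type} (P : ∀ c, Prog V (G c)) : Prog V (Σ c, G c) where
  l := fun i => (P i.1).l i.2
  m := fun i j k => if h : k.1 = i.1 then (P i.1).m i.2 j (h ▸ k.2) else 0
  rk := fun i => (P i.1).rk i.2
  tri := by
    rintro ⟨c, i⟩ j ⟨c', k⟩ h
    by_cases hc : c' = c
    · subst hc
      simp only [dite_true] at h
      exact (P c').tri i j k h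
    · simp [hc] at h

theorem fam_val {d : ℕ} {G : Fin d → Type} [∀ c, Fintype (G c)] {P : ∀ c, Prog V (G c)}
    {u : V → ℝ} {T : (Σ c, G c) → ℝ} (h : (fam P).Val u T) (c : Fin d) :
    (P c).Val u (fun i => T ⟨c, i⟩) := by
  intro i
  have key : ∀ j : Fin 3, (fam P).arg u T ⟨c, i⟩ j = (P c).arg u (fun i => T ⟨c, i⟩) i j := by
    intro j
    unfold arg
    congr 1
    rw [Fintype.sum_sigma]
    rw [Finset.sum_eq_single c]
    · refine Finset.sum_congr rfl fun k _ => ?_
      simp [fam]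
    · intro c' _ hc'
      refine Finset.sum_eq_zero fun k _ => ?_
      simp [fam, hc']
    · intro hc; exact absurd (Finset.mem_univ _) hc
  have := h ⟨c, i⟩
  rw [key 0, key 1, key 2] at this
  exact this

theorem comp_fam {d : ℕ} {G : Fin d → Type} [∀ c, Fintype (G c)] {P : ∀ c, Prog V (G c)}
    (c : Fin d) {f : (V → ℝ) → ℝ} (h : Comp (P c) f) : Comp (fam P) f := by
  obtain ⟨a, b, hab⟩ := h
  refine ⟨a, fun i => if h : i.1 = c then b (h ▸ i.2) else 0, ?_⟩
  intro u T hT
  rw [hab u _ (fam_val hT c)]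
  congr 1
  rw [Fintype.sum_sigma]
  rw [Finset.sum_eq_single c]
  · refine Finset.sum_congr rfl fun k _ => ?_
    simp
  · intro c' _ hc'
    refine Finset.sum_eq_zero fun k _ => ?_
    simp [hc']
  · intro hc; exact absurd (Finset.mem_univ _) hc

end Prog

theorem exists_prog {V : Type} [Fintype V] {f : (V → ℝ) → ℝ} (hf : MedFn V f) :
    ∃ (G : Type) (_ : Fintype G) (P : Prog V G), Comp P f := by
  induction hf with
  | lin a =>
    exact ⟨Empty, inferInstance, ⟨fun i => i.elim, fun i => i.elim, fun i => i.elim,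
      fun i => i.elim⟩, Prog.comp_lin _ a⟩
  | add _ _ h1 h2 =>
    obtain ⟨G, _, P, hP⟩ := h1
    obtain ⟨H, _, Q, hQ⟩ := h2
    exact ⟨G ⊕ H, inferInstance, P.side Q,
      Prog.comp_add (Prog.comp_side_left Q hP) (Prog.comp_side_right P hQ)⟩
  | smul c _ h1 =>
    obtain ⟨G, _, P, hP⟩ := h1
    exact ⟨G, inferInstance, P, Prog.comp_smul c hP⟩
  | med _ _ _ h1 h2 h3 =>
    obtain ⟨G, _, P, hP⟩ := h1
    obtain ⟨H, _, Q, hQ⟩ := h2
    obtain ⟨K, _, R, hR⟩ := h3
    obtain ⟨Z, hZ⟩ := Prog.comp_med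
      (Prog.comp_side_left R (Prog.comp_side_left Q hP))
      (Prog.comp_side_left R (Prog.comp_side_right P hQ))
      (Prog.comp_side_right (P.side Q) hR)
    exact ⟨((G ⊕ H) ⊕ K) ⊕ Unit, inferInstance, Z, hZ⟩

/-- PROG -/
theorem medFn_prog {V : Type} [Fintype V] {d : ℕ} (f : Fin d → (V → ℝ) → ℝ)
    (hf : ∀ c, MedFn V (f c)) :
    ∃ (G : Type) (_ : Fintype G) (_ : DecidableEq G) (P : Prog V G) (a : Fin d → V → ℝ)
      (b : Fin d → G → ℝ), ∀ u T, P.Val u T →
        ∀ c, f c u = ∑ v, a c v * u v + ∑ k, b c k * T k := by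
  classical
  have h := fun c => exists_prog (hf c)
  choose G hG P hP using h
  have h2 : ∀ c, Comp (Prog.fam P) (f c) := fun c => Prog.comp_fam c (hP c)
  choose a b hab using h2
  exact ⟨Σ c, G c, inferInstance, Classical.decEq _, Prog.fam P, a, b,
    fun u T hT c => hab c u T hT⟩

end Pool.LU
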