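/-
H68: PROJECT LU (MP_98dedd_gt), part A, module GLUE: an odd nonvanishing map on the deleted join
is replaced by the output of one straight-line program of medians.
-/
import Pool.Agent.H68.LU.ProgMain
import Pool.Agent.H70.LU.Retract

namespace Pool.LU

open scoped BigOperators
open Pool.LU.Retract

/-- the region on which the extended map does not vanish -/
def Reg {V : Type*} [Fintype V] (K : Set (Finset V)) : Set (V → ℝ) :=
  {u | (pos u ∈ K ∧ 0 ≤ ∑ v, u v) ∨ (pos (-u) ∈ K ∧ ∑ v, u v ≤ 0)}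

theorem pos_smul {V : Type*} [Fintype V] {s : ℝ} (hs : 0 < s) (u : V → ℝ) :
    pos (s • u) = pos u := by
  ext v
  rw [mem_pos, mem_pos, Pi.smul_apply, smul_eq_mul]
  exact ⟨fun h => (mul_pos_iff_of_pos_left hs).mp h, fun h => mul_pos hs h⟩

theorem reg_smul {V : Type*} [Fintype V] {K : Set (Finset V)} {s : ℝ} (hs : 0 < s) {u : V → ℝ}
    (hu : u ∈ Reg K) : s • u ∈ Reg K := by
  have hsum : ∑ v, (s • u) v = s * ∑ v, u v := by
    rw [Finset.mul_sum]; rfl
  rcases hu with ⟨h1, h2⟩ | ⟨h1, h2⟩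
  · left
    rw [pos_smul hs, hsum]
    exact ⟨h1, mul_nonneg hs.le h2⟩
  · right
    rw [← smul_neg, pos_smul hs, hsum]
    exact ⟨h1, mul_nonpos_of_nonneg_of_nonpos hs.le h2⟩

theorem reg_neg {V : Type*} [Fintype V] {K : Set (Finset V)} {u : V → ℝ}
    (hu : u ∈ Reg K) : -u ∈ Reg K := by
  have hsum : ∑ v, (-u) v = - ∑ v, u v := by
    simp
  rcases hu with ⟨h1, h2⟩ | ⟨h1, h2⟩
  · right
    rw [neg_neg, hsum]
    exact ⟨h1, by linarith⟩
  · left
    rw [hsum]
    exact ⟨h1, by linarith⟩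

theorem isClosed_reg {V : Type*} [Fintype V] [DecidableEq V] (K : Set (Finset V))
    (hK : ∀ s ∈ K, ∀ t, t ⊆ s → t ∈ K) : IsClosed (Reg K) := by
  have hc : Continuous fun u : V → ℝ => ∑ v, u v := by fun_prop
  refine IsClosed.union ?_ ?_
  · exact (isClosed_pos K hK).inter (isClosed_le continuous_const hc)
  · exact ((isClosed_pos K hK).preimage continuous_neg).inter (isClosed_le hc continuous_const)

/-- from a continuous odd map which does not vanish on the region to median functions -/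
theorem exists_medFn_family {V : Type*} [Fintype V] [DecidableEq V] {m : ℕ}
    (K : Set (Finset V)) (hK : ∀ s ∈ K, ∀ t, t ⊆ s → t ∈ K)
    (G : (V → ℝ) → (Fin m → ℝ)) (hc : Continuous G) (hodd : ∀ u, G (-u) = - G u)
    (h0 : ∀ u : V → ℝ, u ≠ 0 → u ∈ Reg K → G u ≠ 0) :
    ∃ f : Fin m → (V → ℝ) → ℝ, (∀ c, MedFn V (f c)) ∧
      ∀ u : V → ℝ, u ≠ 0 → u ∈ Reg K → ∃ c, f c u ≠ 0 := by
  set S : Set (V → ℝ) := Reg K ∩ Metric.sphere 0 1 with hSdef
  have hS : IsCompact S := (isCompact_sphere 0 1).inter_left (isClosed_reg K hK)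
  have h1 : ∀ u ∈ S, ‖u‖ = 1 := by
    intro u hu
    simpa using hu.2
  have hneg : ∀ u ∈ S, -u ∈ S := by
    intro u hu
    refine ⟨reg_neg hu.1, ?_⟩
    simpa using hu.2
  -- a lower bound
  obtain ⟨δ, hδ, hlow⟩ : ∃ δ : ℝ, 0 < δ ∧ ∀ u ∈ S, δ ≤ ‖G u‖ := by
    rcases S.eq_empty_or_nonempty with he | hne
    · exact ⟨1, one_pos, by simp [he]⟩
    · obtain ⟨u0, hu0, hmin⟩ := hS.exists_isMinOn hne (hc.norm.continuousOn)
      refine ⟨‖G u0‖, ?_, fun u hu => hmin hu⟩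
      rw [norm_pos_iff]
      refine h0 u0 ?_ hu0.1
      intro h
      have := h1 u0 hu0
      rw [h, norm_zero] at this
      exact zero_ne_one this
  have happ : ∀ c : Fin m, ∃ f, MedFn V f ∧ ∀ u ∈ S, |f u - G u c| < δ := by
    intro c
    refine medFn_dense hS h1 (fun u => G u c) ?_ ?_ hδ
    · exact ((continuous_apply c).comp hc).continuousOn
    · intro u hu
      refine ⟨hneg u hu, ?_⟩
      show G (-u) c = - G u c
      rw [hodd u]; rfl
  choose f hf hfg using happ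
  have hS0 : ∀ u ∈ S, ∃ c, f c u ≠ 0 := by
    intro u hu
    by_contra hcon
    push Not at hcon
    have hlt : ‖G u‖ < δ := by
      rw [pi_norm_lt_iff hδ]
      intro c
      have := hfg c u hu
      rw [hcon c, zero_sub, abs_neg] at this
      exact this
    exact absurd (hlow u hu) (not_le.mpr hlt)
  refine ⟨f, hf, ?_⟩
  intro u hu hur
  have hpos : 0 < ‖u‖ := norm_pos_iff.mpr hu
  have hmem : (‖u‖⁻¹ • u) ∈ S := by
    refine ⟨reg_smul (inv_pos.mpr hpos) hur, ?_⟩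
    rw [mem_sphere_zero_iff_norm, norm_smul, norm_inv, norm_norm,
      inv_mul_cancel₀ hpos.ne']
  obtain ⟨c, hcne⟩ := hS0 _ hmem
  refine ⟨c, ?_⟩
  rw [(hf c).homog (inv_nonneg.mpr hpos.le)] at hcne
  exact right_ne_zero_of_mul hcne

/-- GLUE: from an odd nonvanishing map on the deleted join of `K` to a program of medians whose
linear outputs do not all vanish at the points whose positive part is supported by `K`. -/
theorem partA_circuits {V : Type} [Fintype V] [DecidableEq V] {m : ℕ}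
    (K : Set (Finset V)) (hK : ∀ s ∈ K, ∀ t, t ⊆ s → t ∈ K) (hne : K.Nonempty)
    (G0 : (V → ℝ) → (Fin m → ℝ)) (hc : ContinuousOn G0 (DJ K))
    (hodd : ∀ u ∈ DJ K, G0 (-u) = - G0 u) (h0 : ∀ u ∈ DJ K, u ≠ 0 → G0 u ≠ 0) :
    ∃ (G : Type) (_ : Fintype G) (_ : DecidableEq G) (P : Prog V G) (a : Fin m → V → ℝ)
      (b : Fin m → G → ℝ), ∀ u T, P.Val u T → u ≠ 0 → pos u ∈ K → 0 ≤ ∑ v, u v →
        ∃ c, ∑ v, a c v * u v + ∑ k, b c k * T k ≠ 0 := by
  obtain ⟨F, hFc, hFodd, hF0⟩ := retract K hK hne G0 hc hodd h0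
  obtain ⟨f, hf, hf0⟩ := exists_medFn_family K hK F hFc hFodd
    (fun u hu hur => hF0 u hu hur)
  obtain ⟨G, hG1, hG2, P, a, b, hP⟩ := medFn_prog f hf
  refine ⟨G, hG1, hG2, P, a, b, ?_⟩
  intro u T hT hu hpos hsum
  obtain ⟨c, hcne⟩ := hf0 u hu (Or.inl ⟨hpos, hsum⟩)
  exact ⟨c, by rw [← hP u T hT c]; exact hcne⟩

end Pool.LU
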